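import Pool.Agent.Y655.NS.CFPL
import Pool.Agent.Y8.Stm9
import Pool.Agent.W12.MD.POINC

/-!
`S_CFP` with absolute constants (job 523 for helper8): the proof of `t_CFPL`
(`Pool.Agent.Y655.NS.CFPL`) with the weighted mean of the velocity subtracted.
-/

open MeasureTheory Set Metric Filter Topology
open scoped ContDiff

namespace Pool.Agent.Y255.NS

open H459R3.NS W221.NS Pool.Agent.Y8 Pool.Agent.Y494.NS.Sumb Pool.Agent.Y494.NS.Cfp
  Pool.Agent.Y655.NS

/-- The weighted mean. -/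
noncomputable def mn (u : V → V) : V := fun i => ∫ z, th z * u z i

/-- The field without its weighted mean. -/
noncomputable def sb (u : V → V) : V → V := fun x => u x - mn u

/-- The density with the weight `s`. -/
noncomputable def hw (s : ℝ) (w : V → V) (x : V) : ℝ := s * nsq w x + (s ^ 2)⁻¹ * nsq w x ^ 3

theorem sb_sm {u : V → V} (hu : ContDiff ℝ ∞ u) : ContDiff ℝ ∞ (sb u) := hu.sub contDiff_const

theorem sb_per {u : V → V} (hu : Per u) : Per (sb u) := by
  intro i x
  unfold sb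
  rw [hu i x]

theorem pd_sb (u : V → V) (i j : Fin 3) : pd j (fun y => sb u y i) = pd j (fun y => u y i) := by
  funext x
  unfold pd sb
  have : (fun y => (u y - mn u) i) = fun y => u y i - mn u i := rfl
  rw [this, fderiv_sub_const]

theorem gsq_sb (u : V → V) : gsq (sb u) = gsq u := by
  funext x
  unfold gsq
  simp only [pd_sb]

theorem enst_sb {u : V → V} (hu : ContDiff ℝ ∞ u) : enstrophy (sb u) = enstrophy u := by
  rw [enst_eq (sb_sm hu), enst_eq hu, gsq_sb]

theorem th_int {f : V → ℝ} (hf : Continuous f) : Integrable fun z => th z * f z :=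
  (th_sm.continuous.mul hf).integrable_of_hasCompactSupport (th_hcs.mul_right)

theorem mean_sb {u : V → V} (hu : ContDiff ℝ ∞ u) (i : Fin 3) : ∫ z, th z * sb u z i = 0 := by
  have h1 : Continuous fun z => u z i := (contDiff_pi.1 hu i).continuous
  have e : (fun z => th z * sb u z i) = fun z => th z * u z i - mn u i * th z := by
    funext z
    show th z * (u z i - mn u i) = _
    ring
  have h2 : Integrable fun z => mn u i * th z :=
    (th_sm.continuous.integrable_of_hasCompactSupport th_hcs).const_mul _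
  rw [e, integral_sub (th_int h1) h2, integral_const_mul, th_i1, mul_one]
  exact sub_self _

theorem mn_sq {u : V → V} (hu : ContDiff ℝ ∞ u) (i : Fin 3) :
    mn u i ^ 2 ≤ ∫ z, th z * u z i ^ 2 := by
  have h1 : Continuous fun z => u z i := (contDiff_pi.1 hu i).continuous
  have h0 : 0 ≤ ∫ z, th z * (u z i - mn u i) ^ 2 :=
    integral_nonneg fun z => mul_nonneg (th_nn z) (sq_nonneg _)
  have e : (fun z => th z * (u z i - mn u i) ^ 2) =
      fun z => th z * u z i ^ 2 - (2 * mn u i) * (th z * u z i) + mn u i ^ 2 * th z := by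
    funext z
    ring
  have h2 : Integrable fun z => mn u i ^ 2 * th z :=
    (th_sm.continuous.integrable_of_hasCompactSupport th_hcs).const_mul _
  have h3 : Integrable fun z => (2 * mn u i) * (th z * u z i) := (th_int h1).const_mul _
  have h4 : Integrable fun z => th z * u z i ^ 2 := th_int (h1.pow 2)
  have h5 : Integrable fun z => th z * u z i ^ 2 - (2 * mn u i) * (th z * u z i) := h4.sub h3
  rw [e, integral_add h5 h2, integral_sub h4 h3, integral_const_mul, integral_const_mul,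
    th_i1] at h0
  have e2 : ∫ z, th z * u z i = mn u i := rfl
  rw [e2] at h0
  nlinarith

theorem mn_bd : ∃ K : ℝ, 0 < K ∧ ∀ u : V → V, SPV u → ∑ i, mn u i ^ 2 ≤ K * energy u := by
  obtain ⟨K, hK, hK1, -, -, -⟩ := th_bd
  obtain ⟨C, hC, h⟩ := ball_le 1
  refine ⟨K * C, by positivity, fun u hu => ?_⟩
  have hc : ∀ i, Continuous fun z => u z i ^ 2 := fun i => (contDiff_pi.1 hu.1 i).continuous.pow 2
  have h1 : ∑ i, mn u i ^ 2 ≤ ∫ z, th z * nsq u z := by
    have e : (fun z => th z * nsq u z) = fun z => ∑ i, th z * u z i ^ 2 := by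
      funext z
      unfold nsq
      rw [Finset.mul_sum]
    rw [e, integral_finsetSum _ fun i _ => th_int (hc i)]
    exact Finset.sum_le_sum fun i _ => mn_sq hu.1 i
  have hn := (nsq_sm hu.1).continuous
  have h2 : ∫ z, th z * nsq u z ≤ K * ∫ z in ball 0 1, nsq u z := by
    rw [← ball_int_eq (a := (0 : V)) (R := 1) (f := fun z => th z * nsq u z)
      (fun z hz => by rw [th_z hz, zero_mul]), ← integral_const_mul]
    refine setIntegral_mono ?_ ((ballint hn _ _).const_mul _) fun z => ?_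
    · exact (th_int hn).integrableOn
    · exact mul_le_mul_of_nonneg_right (hK1 z) (nsq_nn u z)
  have h3 : ∫ z in ball 0 1, nsq u z ≤ C * energy u := by
    rw [energy_eq hu.1]
    exact h _ hn (nsq_per hu.2) (nsq_nn u) _
  calc ∑ i, mn u i ^ 2 ≤ K * ∫ z in ball 0 1, nsq u z := h1.trans h2
    _ ≤ K * (C * energy u) := mul_le_mul_of_nonneg_left h3 (by linarith)
    _ = _ := by ring

theorem nsq_le_sb (u : V → V) (x : V) : nsq u x ≤ 2 * nsq (sb u) x + 2 * ∑ i, mn u i ^ 2 := by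
  unfold nsq sb
  rw [Finset.mul_sum, Finset.mul_sum, ← Finset.sum_add_distrib]
  refine Finset.sum_le_sum fun i _ => ?_
  show u x i ^ 2 ≤ 2 * (u x i - mn u i) ^ 2 + 2 * mn u i ^ 2
  nlinarith [sq_nonneg (u x i - 2 * mn u i)]

theorem sb_le_nsq (u : V → V) (x : V) : nsq (sb u) x ≤ 2 * nsq u x + 2 * ∑ i, mn u i ^ 2 := by
  unfold nsq sb
  rw [Finset.mul_sum, Finset.mul_sum, ← Finset.sum_add_distrib]
  refine Finset.sum_le_sum fun i _ => ?_
  show (u x i - mn u i) ^ 2 ≤ 2 * u x i ^ 2 + 2 * mn u i ^ 2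
  nlinarith [sq_nonneg (u x i + mn u i)]

theorem cube_sub : cube ⊆ ball (0 : V) 2 := by
  intro x hx
  rw [mem_ball, dist_pi_lt_iff two_pos]
  intro i
  have h3 := hx.1 i
  have h4 := hx.2 i
  simp only [Pi.zero_apply, Pi.one_apply] at h3 h4
  rw [Real.dist_eq, abs_lt, Pi.zero_apply]
  constructor <;> linarith

/-- The energy of the field without its mean. -/
theorem sb_energy : ∃ C : ℝ, 0 < C ∧ ∀ u : V → V, SPV u →
    ∫ x in cube, nsq (sb u) x ≤ C * energy u ∧ ∫ x in cube, nsq (sb u) x ≤ C * enstrophy u := by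
  obtain ⟨K, hK, h⟩ := mn_bd
  obtain ⟨C, hC, hP⟩ := Pool.Agent.W12.MD.t_POINC
  obtain ⟨C', hC', h'⟩ := ball_le 2
  refine ⟨2 + 2 * K + C * C', by positivity, fun u hu => ?_⟩
  have hn := (nsq_sm hu.1).continuous
  have hn' := (nsq_sm (sb_sm hu.1)).continuous
  have h0 := energy_nn u
  have h0' := enst_nn u
  constructor
  · have h1 : ∫ x in cube, nsq (sb u) x ≤ ∫ x in cube, (2 * nsq u x + 2 * ∑ i, mn u i ^ 2) :=
      setIntegral_mono (cube_int hn') (cube_int (by fun_prop)) fun x => sb_le_nsq u x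
    have h2 : ∫ x in cube, (2 * nsq u x + 2 * ∑ i, mn u i ^ 2) =
        2 * energy u + 2 * ∑ i, mn u i ^ 2 := by
      rw [integral_add ((cube_int hn).const_mul _) (cube_int continuous_const), integral_const_mul,
        setIntegral_const, cube_vol, one_smul, energy_eq hu.1]
    rw [h2] at h1
    have h3 := h u hu
    have : 0 ≤ C * C' * energy u := by positivity
    nlinarith
  · have h1 : ∫ x in cube, nsq (sb u) x ≤ A2 0 2 (sb u) := by
      unfold A2
      exact setIntegral_mono_set (ballint hn' _ _) (ae_of_all _ fun x => nsq_nn _ x)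
        cube_sub.eventuallyLE
    have h2 := hP (sb u) (sb_sm hu.1) (mean_sb hu.1)
    have h3 : B2 0 2 (sb u) ≤ C' * enstrophy u := by
      unfold B2
      rw [gsq_sb, enst_eq hu.1]
      exact h' _ (gsq_sm hu.1).continuous (gsq_per hu.2) (gsq_nn u) _
    have h4 : C * B2 0 2 (sb u) ≤ C * (C' * enstrophy u) := mul_le_mul_of_nonneg_left h3 hC.le
    have : 0 ≤ (2 + 2 * K) * enstrophy u := by positivity
    nlinarith

theorem hw_nn {s : ℝ} (hs : 0 < s) (w : V → V) (x : V) : 0 ≤ hw s w x := by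
  unfold hw
  have := nsq_nn w x
  positivity

theorem hw_cont (s : ℝ) {w : V → V} (hw' : ContDiff ℝ ∞ w) : Continuous (hw s w) := by
  unfold hw
  have := (nsq_sm hw').continuous
  fun_prop

theorem hw_per (s : ℝ) {w : V → V} (hw' : Per w) : Per (hw s w) := by
  intro i x
  unfold hw
  rw [nsq_per hw' i x]

/-- The density on the cube. -/
theorem hw_cube : ∃ C : ℝ, 0 < C ∧ ∀ (e η : ℝ) (u : V → V), 0 < e → 0 < η → SPV u →
    energy u ≤ e ^ 3 →
      ∫ x in cube, hw ((enstrophy u + η) / e) (sb u) x ≤ C * e ^ 2 * (enstrophy u + η) := by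
  obtain ⟨C, hC, h⟩ := sob_cube
  obtain ⟨K, hK, hK'⟩ := sb_energy
  refine ⟨K + C * (1 + K) ^ 3, by positivity, fun e η u he hη hu hE => ?_⟩
  have hu' : SPV (sb u) := ⟨sb_sm hu.1, sb_per hu.2⟩
  have h1 := h (sb u) hu'
  obtain ⟨h2, h3⟩ := hK' u hu
  have hen := enst_nn u
  set X := enstrophy u with hX
  have hX' : 0 < X + η := by linarith
  have hn := (nsq_sm hu'.1).continuous
  have hn3 : Continuous fun x => nsq (sb u) x ^ 3 := hn.pow 3
  have e1 : ∫ x in cube, hw ((X + η) / e) (sb u) x = (X + η) / e * (∫ x in cube, nsq (sb u) x) +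
      (((X + η) / e) ^ 2)⁻¹ * ∫ x in cube, nsq (sb u) x ^ 3 := by
    unfold hw
    rw [integral_add ((cube_int hn).const_mul _) ((cube_int hn3).const_mul _),
      integral_const_mul, integral_const_mul]
  rw [e1]
  have a1 : (X + η) / e * ∫ x in cube, nsq (sb u) x ≤ K * e ^ 2 * (X + η) := by
    calc (X + η) / e * ∫ x in cube, nsq (sb u) x ≤ (X + η) / e * (K * e ^ 3) :=
          mul_le_mul_of_nonneg_left (h2.trans (mul_le_mul_of_nonneg_left hE hK.le)) (by positivity)
      _ = _ := by field_simp <;> ring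
  have a2 : (((X + η) / e) ^ 2)⁻¹ * ∫ x in cube, nsq (sb u) x ^ 3 ≤
      C * (1 + K) ^ 3 * e ^ 2 * (X + η) := by
    have b1 : ∫ x in cube, nsq (sb u) x ^ 3 ≤ C * ((1 + K) * X) ^ 3 := by
      refine h1.trans (mul_le_mul_of_nonneg_left ?_ hC.le)
      rw [enst_sb hu.1, ← hX]
      have b2 : energy (sb u) ≤ K * X := by
        rw [energy_eq hu'.1]
        exact h3
      have b3 := energy_nn (sb u)
      exact pow_le_pow_left₀ (by positivity) (by linarith) 3
    have b4 : ((1 + K) * X) ^ 3 ≤ (1 + K) ^ 3 * (X + η) ^ 3 := by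
      rw [mul_pow]
      exact mul_le_mul_of_nonneg_left (pow_le_pow_left₀ hen (by linarith) 3) (by positivity)
    calc (((X + η) / e) ^ 2)⁻¹ * ∫ x in cube, nsq (sb u) x ^ 3
        ≤ (((X + η) / e) ^ 2)⁻¹ * (C * ((1 + K) ^ 3 * (X + η) ^ 3)) :=
          mul_le_mul_of_nonneg_left (b1.trans (mul_le_mul_of_nonneg_left b4 hC.le)) (by positivity)
      _ = _ := by field_simp <;> ring
  calc _ ≤ K * e ^ 2 * (X + η) + C * (1 + K) ^ 3 * e ^ 2 * (X + η) := add_le_add a1 a2
    _ = _ := by ring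

theorem A2_tr {s : ℝ} (hs : 0 < s) {w : V → V} (hw' : ContDiff ℝ ∞ w) (a : V) {ρ m : ℝ}
    (hρ : 0 < ρ) (hm : 0 < m) :
    A2 a ρ w ≤ (2 * ρ) ^ 3 * m ^ 3 + (m ^ 2)⁻¹ * ∫ x in ball a ρ, hw s w x := by
  unfold A2
  have hi := ballint (hw_cont s hw') a ρ
  calc ∫ z in ball a ρ, nsq w z ≤ ∫ z in ball a ρ, (m ^ 3 + (m ^ 2)⁻¹ * hw s w z) := by
        refine setIntegral_mono (ballint (nsq_sm hw').continuous a ρ)
          ((ballint continuous_const a ρ).add (hi.const_mul _)) fun z => ?_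
        exact trunc1 (nsq_nn w z) hs hm
    _ = _ := by
        rw [integral_add (ballint continuous_const a ρ) (hi.const_mul _), setIntegral_const,
          ball_vol a hρ, integral_const_mul, smul_eq_mul]

theorem mo_tr : ∃ K : ℝ, 1 ≤ K ∧ ∀ (s : ℝ) (w : V → V), 0 < s → ContDiff ℝ ∞ w →
    ∀ (a : V) (r l : ℝ), 0 < r → 0 < l →
    ‖mo r w a‖ ≤ K * (8 * l ^ 3 + (l ^ 7)⁻¹ * (r ^ 3)⁻¹ * ∫ x in ball a r, hw s w x) := by
  obtain ⟨K, hK, hK1, -, hK3, hK4⟩ := th_bd
  refine ⟨K, hK, fun s w hs hw' a r l hr hl => ?_⟩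
  have hI0 : 0 ≤ ∫ x in ball a r, hw s w x := integral_nonneg fun x => hw_nn hs w x
  rw [pi_norm_le_iff_of_nonneg (by positivity)]
  intro i
  have hi := ballint (hw_cont s hw') a r
  rw [mo_eq hr, ← ball_int_eq (a := a) (R := r) (f := fun z => w z i * kx r a z)
    (fun z hz => by rw [kx_z hr hz, mul_zero])]
  calc ‖∫ z in ball a r, w z i * kx r a z‖
      ≤ ∫ z in ball a r, K * (r ^ 3)⁻¹ * (l ^ 3 + (l ^ 7)⁻¹ * hw s w z) := by
        refine norm_integral_le_of_norm_le
          (((ballint continuous_const a r).add (hi.const_mul _)).const_mul _) (ae_of_all _ fun z => ?_)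
        rw [norm_mul, Real.norm_eq_abs, Real.norm_eq_abs, mul_comm]
        have h2 := (kx_bd hK1 hK3 hK4 hr a z).1
        have h3 : |w z i| ≤ l ^ 3 + (l ^ 7)⁻¹ * hw s w z :=
          (abs_comp_le w z i).trans (trunc2 (nsq_nn w z) hs hl)
        exact mul_le_mul h2 h3 (abs_nonneg _) (by positivity)
    _ = _ := by
        rw [integral_const_mul, integral_add (ballint continuous_const a r) (hi.const_mul _),
          setIntegral_const, ball_vol a hr, integral_const_mul, smul_eq_mul]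
        field_simp
        ring

/-- The influence of the mean on the local energy. -/
theorem A2_mean {u : V → V} (hu : ContDiff ℝ ∞ u) (a : V) {ρ : ℝ} (hρ : 0 < ρ) :
    A2 a ρ u ≤ 2 * A2 a ρ (sb u) + 2 * (2 * ρ) ^ 3 * ∑ i, mn u i ^ 2 := by
  unfold A2
  have h1 := ballint (nsq_sm (sb_sm hu)).continuous a ρ
  have h2 : IntegrableOn (fun _ : V => 2 * ∑ i, mn u i ^ 2) (ball a ρ) :=
    ballint continuous_const a ρ
  calc ∫ z in ball a ρ, nsq u z ≤ ∫ z in ball a ρ, (2 * nsq (sb u) z + 2 * ∑ i, mn u i ^ 2) :=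
        setIntegral_mono (ballint (nsq_sm hu).continuous a ρ)
          ((h1.const_mul _).add h2) fun z => nsq_le_sb u z
    _ = _ := by
        rw [integral_add (h1.const_mul _) h2, integral_const_mul,
          setIntegral_const, ball_vol a hρ, smul_eq_mul]
        ring

/-- The influence of the mean on the local mean. -/
theorem mo_mean {u : V → V} (hu : ContDiff ℝ ∞ u) (a : V) (r : ℝ) :
    mo r u a = mo r (sb u) a + mn u := by
  funext i
  have h1 : Continuous fun z => u z i := (contDiff_pi.1 hu i).continuous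
  have h2 : Continuous fun y : V => sb u (a + r • y) i := by
    show Continuous fun y : V => u (a + r • y) i - mn u i
    exact (h1.comp (by fun_prop)).sub continuous_const
  show ∫ y, th y * u (a + r • y) i = (∫ y, th y * sb u (a + r • y) i) + mn u i
  have e : (fun y => th y * u (a + r • y) i) = fun y => th y * sb u (a + r • y) i + mn u i * th y := by
    funext y
    show _ = th y * (u (a + r • y) i - mn u i) + mn u i * th y
    ring
  have h3 : Integrable fun z => mn u i * th z :=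
    (th_sm.continuous.integrable_of_hasCompactSupport th_hcs).const_mul _
  rw [e, integral_add (th_int h2) h3, integral_const_mul, th_i1, mul_one]

theorem mn_norm (u : V → V) {x : ℝ} (hx : 0 ≤ x) (h : ∑ i, mn u i ^ 2 ≤ x ^ 2) : ‖mn u‖ ≤ x := by
  rw [pi_norm_le_iff_of_nonneg hx]
  intro i
  rw [Real.norm_eq_abs]
  refine abs_le_of_sq_le_sq ?_ hx
  exact (Finset.single_le_sum (f := fun i => mn u i ^ 2) (fun _ _ => sq_nonneg _)
    (Finset.mem_univ i)).trans h

section

variable {T E D : ℝ} {G : Set ℝ} {u : ℝ → V → V} {p : ℝ → V → ℝ}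

theorem mn_cont (h : Turb 1 T E D G u p) (i : Fin 3) : ContinuousOn (fun t => mn (u t) i) G := by
  refine pint_cont_c h.openG (F := fun t z => th z * u t z i) ?_ 0 1
    (fun t _ z hz => by rw [th_z hz, zero_mul])
  refine ContinuousOn.mul ?_ ?_
  · exact (th_sm.continuous.comp continuous_snd).continuousOn
  · exact (continuous_apply i).comp_continuousOn h.smooth_u.continuousOn

theorem nsq_sb_joint (h : Turb 1 T E D G u p) :
    ContinuousOn (fun z : ℝ × V => nsq (sb (u z.1)) z.2) (G ×ˢ univ) := by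
  unfold nsq sb
  refine continuousOn_finsetSum _ fun i _ => ContinuousOn.pow ?_ 2
  refine ContinuousOn.sub ((continuous_apply i).comp_continuousOn h.smooth_u.continuousOn) ?_
  exact (mn_cont h i).comp continuousOn_fst fun z hz => hz.1

theorem hw_G (h : Turb 1 T E D G u p) {e η : ℝ} (he : 0 < e) (hη : 0 < η) (hE : E ^ 2 ≤ e ^ 3)
    (ρ : ℝ) (a : V) :
    IntegrableOn (fun t => ∫ x in ball a ρ, hw ((enstrophy (u t) + η) / e) (sb (u t)) x) G := by
  obtain ⟨K, hK, hb⟩ := ball_le ρ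
  obtain ⟨C, hC, hC'⟩ := hw_cube
  have hen : IntegrableOn (fun t => enstrophy (u t) + η) G :=
    h.enst_int.add (integrableOn_const h.volG)
  have hm : AEStronglyMeasurable
      (fun t => ∫ x in ball a ρ, hw ((enstrophy (u t) + η) / e) (sb (u t)) x)
      (volume.restrict G) := by
    have m1 : AEStronglyMeasurable (fun t => (enstrophy (u t) + η) / e) (volume.restrict G) :=
      (hen.aestronglyMeasurable.aemeasurable.div_const e).aestronglyMeasurable
    have m2 : AEStronglyMeasurable (fun t => ∫ x in ball a ρ, nsq (sb (u t)) x)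
        (volume.restrict G) :=
      (pint_cont h.openG (F := fun t x => nsq (sb (u t)) x) (nsq_sb_joint h) a
        ρ).aestronglyMeasurable h.openG.measurableSet
    have m3 : AEStronglyMeasurable (fun t => ∫ x in ball a ρ, nsq (sb (u t)) x ^ 3)
        (volume.restrict G) :=
      (pint_cont h.openG (F := fun t x => nsq (sb (u t)) x ^ 3)
        ((nsq_sb_joint h).pow 3) a ρ).aestronglyMeasurable h.openG.measurableSet
    have m4 : AEStronglyMeasurable (fun t => (((enstrophy (u t) + η) / e) ^ 2)⁻¹)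
        (volume.restrict G) :=
      ((m1.aemeasurable.pow_const 2).inv).aestronglyMeasurable
    refine ((m1.mul m2).add (m4.mul m3)).congr ?_
    filter_upwards [ae_restrict_mem h.openG.measurableSet] with t ht
    have hn := (nsq_sm (sb_sm (h.spv ht).1)).continuous
    simp only [Pi.add_apply, Pi.mul_apply]
    unfold hw
    have hn3 : Continuous fun x => nsq (sb (u t)) x ^ 3 := hn.pow 3
    rw [integral_add ((ballint hn a ρ).const_mul _) ((ballint hn3 a ρ).const_mul _),
      integral_const_mul, integral_const_mul]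
  refine Integrable.mono' ((hen.const_mul (C * e ^ 2)).const_mul K) hm ?_
  filter_upwards [ae_restrict_mem h.openG.measurableSet] with t ht
  have hu := h.spv ht
  have hs : 0 < (enstrophy (u t) + η) / e := by
    have := enst_nn (u t)
    positivity
  rw [Real.norm_eq_abs, abs_of_nonneg (integral_nonneg fun x => hw_nn hs _ x)]
  refine (hb _ (hw_cont _ (sb_sm hu.1)) (hw_per _ (sb_per hu.2)) (hw_nn hs _) a).trans ?_
  exact mul_le_mul_of_nonneg_left (hC' e η (u t) he hη hu ((h.energy_le t ht).trans hE)) hK.le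

end

/-- The packing bound. -/
theorem hw_pack (hO : S_OVER) : ∃ L : ℝ, 0 < L ∧
    ∀ (T E D : ℝ) (G : Set ℝ) (u : ℝ → V → V) (p : ℝ → V → ℝ), Turb 1 T E D G u p →
    ∀ e η : ℝ, 0 < e → 0 < η → E ^ 2 ≤ e ^ 3 →
    ∀ (n : ℕ) (S : Finset (ℝ × V)), Sep (rr n) S →
    (∀ z ∈ S, 0 ≤ z.1 - rr n ^ 2 ∧ z.1 + rr n ^ 2 ≤ T ∧ z.2 ∈ cube) → ∀ ρ : ℝ, rr n ≤ ρ → ρ ≤ 2 →
      ∑ z ∈ S, ∫ t in II n z.1, ∫ x in ball z.2 ρ, hw ((enstrophy (u t) + η) / e) (sb (u t)) x ≤
        L * (e ^ 2 * (D + η * |T|)) * (ρ / rr n) ^ 3 := by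
  obtain ⟨C₀, hC₀, hO⟩ := hO
  obtain ⟨C, hC, hC'⟩ := hw_cube
  refine ⟨C₀ * C, by positivity, fun T E D G u p h e η he hη hE n S hsep hS ρ hρ hρ2 => ?_⟩
  have hs : ∀ t, 0 < (enstrophy (u t) + η) / e := fun t => by
    have := enst_nn (u t)
    positivity
  have hen : IntegrableOn (fun t => enstrophy (u t) + η) G :=
    h.enst_int.add (integrableOn_const h.volG)
  have h1 := pack' (F := fun t x => hw ((enstrophy (u t) + η) / e) (sb (u t)) x) hC₀.le hO h hsep
    hS hρ hρ2
    (fun t ht => hw_cont _ (sb_sm (h.spv ht).1)) (fun t ht => hw_per _ (sb_per (h.spv ht).2))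
    (fun t _ x => hw_nn (hs t) _ x) (fun a => hw_G h he hη hE ρ a) (hen.const_mul (C * e ^ 2))
    (fun t ht => hC' e η (u t) he hη (h.spv ht) ((h.energy_le t ht).trans hE))
  rw [integral_const_mul] at h1
  have hr := rr_pos n
  have hρ0 : 0 < ρ := hr.trans_le hρ
  refine h1.trans ?_
  have h2 : ∫ t in G, (enstrophy (u t) + η) ≤ D + η * |T| := by
    have hci : Integrable (fun _ : ℝ => η) (volume.restrict G) := integrableOn_const h.volG
    rw [integral_add h.enst_int hci]
    refine add_le_add h.enst_le ?_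
    rw [setIntegral_const, smul_eq_mul, mul_comm]
    refine mul_le_mul_of_nonneg_left ?_ hη.le
    have h1 : (volume : Measure ℝ).real G ≤ (volume : Measure ℝ).real (Ioo 0 T) :=
      measureReal_mono h.subG (by simp)
    refine h1.trans ?_
    rw [Real.volume_real_Ioo, sub_zero]
    exact max_le (le_abs_self T) (abs_nonneg T)
  calc C₀ * (ρ / rr n) ^ 3 * (C * e ^ 2 * ∫ t in G, (enstrophy (u t) + η))
      ≤ C₀ * (ρ / rr n) ^ 3 * (C * e ^ 2 * (D + η * |T|)) := by gcongr
    _ = _ := by ring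

/-- The count with parameters. -/
theorem core (hO : S_OVER) : ∀ (δ c : ℝ) (κ₀ : ℕ), 0 < δ → 0 < c → ∃ C δ₀ : ℝ, 0 < C ∧ 0 < δ₀ ∧
  ∀ (T E D : ℝ) (G : Set ℝ) (u : ℝ → V → V) (p : ℝ → V → ℝ), Turb 1 T E D G u p →
    ∀ (n j : ℕ), (1 + E ^ 2) * rr n ≤ δ₀ → ∀ S : Finset (ℝ × V), Sep (rr n) S →
      (∀ z ∈ S, 0 ≤ z.1 - rr n ^ 2 ∧ z.1 + rr n ^ 2 ≤ T ∧ z.2 ∈ cube) →
      ((∀ z ∈ S, δ * (4 ^ j / rr n) ≤ ∫ t in II n z.1, NF n (2 * j + κ₀) (u t) z.2) ∨
        ∀ z ∈ S, c * (rr n ^ 2 * (4 ^ j / rr n)) ≤ ∫ t in II n z.1, ‖mo (rr n) (u t) z.2‖) →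
      ∀ e η : ℝ, 0 < e → 0 < η → E ^ 2 ≤ e ^ 3 →
        (S.card : ℝ) ≤ C * (e ^ 2 * (D + η * |T|)) *
          ((2 : ℝ) ^ (-(20 / 3 : ℝ) * j) * (2 : ℝ) ^ ((5 / 3 : ℝ) * n)) := by
  intro δ c κ₀ hδ hc
  obtain ⟨L₀, hL₀, hpk⟩ := hw_pack hO
  obtain ⟨K, hK, hmo⟩ := mo_tr
  obtain ⟨K₁, hK₁, hmn⟩ := mn_bd
  have hK0 : 0 < K := by linarith
  -- cube roots
  obtain ⟨q, hq, hq3⟩ : ∃ q : ℝ, 0 < q ∧ q ^ 3 = δ * 2 ^ κ₀ / 256 := by
    refine ⟨(δ * 2 ^ κ₀ / 256) ^ (1 / 3 : ℝ), by positivity, ?_⟩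
    rw [← Real.rpow_natCast, ← Real.rpow_mul (by positivity)]
    norm_num
  obtain ⟨q', hq', hq3'⟩ : ∃ q : ℝ, 0 < q ∧ q ^ 3 = c / (64 * K) := by
    refine ⟨(c / (64 * K)) ^ (1 / 3 : ℝ), by positivity, ?_⟩
    rw [← Real.rpow_natCast, ← Real.rpow_mul (by positivity)]
    norm_num
  refine ⟨8 * L₀ / (δ * 2 ^ κ₀ * q ^ 2) + 2 * K * L₀ / (c * q' ^ 7),
    min (δ / (256 * K₁)) (c / (8 * (1 + K₁))), by positivity, by positivity,
    fun T E D G u p h n j hsm S hsep hS hcase e η he hη hE => ?_⟩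
  have hD := turb_D h
  set L : ℝ := L₀ * (e ^ 2 * (D + η * |T|)) with hLdef
  have hL : 0 ≤ L := by positivity
  set C1 : ℝ := 8 * L / (δ * 2 ^ κ₀ * q ^ 2) with hC1
  set C2 : ℝ := 2 * K * L / (c * q' ^ 7) with hC2
  have hCC : (8 * L₀ / (δ * 2 ^ κ₀ * q ^ 2) + 2 * K * L₀ / (c * q' ^ 7)) *
      (e ^ 2 * (D + η * |T|)) = C1 + C2 := by
    rw [hC1, hC2, hLdef]
    ring
  rw [hCC]
  obtain ⟨w, hw0, hw3, hw10⟩ := pw n j
  have hr := rr_pos n
  have hr1 := rr_le n
  have hs : ∀ t, 0 < (enstrophy (u t) + η) / e := fun t => by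
    have := enst_nn (u t)
    positivity
  have hpk' : ∀ ρ : ℝ, rr n ≤ ρ → ρ ≤ 2 →
      ∑ z ∈ S, ∫ t in II n z.1, ∫ x in ball z.2 ρ,
        hw ((enstrophy (u t) + η) / e) (sb (u t)) x ≤ L * (ρ / rr n) ^ 3 :=
    hpk T E D G u p h e η he hη hE n S hsep hS
  -- the mean is small
  have hwr : 1 ≤ w ^ 3 * rr n := by
    rw [hw3, div_mul_cancel₀ _ hr.ne']
    exact one_le_pow₀ (by norm_num)
  have hw1 : 1 ≤ w ^ 3 := by
    nlinarith [mul_le_mul_of_nonneg_left hr1 (by positivity : (0 : ℝ) ≤ w ^ 3)]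
  have hEw1 : (1 + E ^ 2) * (256 * K₁) ≤ δ * w ^ 3 := by
    have h1 : (1 + E ^ 2) * rr n ≤ δ / (256 * K₁) := hsm.trans (min_le_left _ _)
    rw [le_div_iff₀ (by positivity)] at h1
    have h2 : (1 + E ^ 2) * (256 * K₁) * 1 ≤ (1 + E ^ 2) * (256 * K₁) * (w ^ 3 * rr n) :=
      mul_le_mul_of_nonneg_left hwr (by positivity)
    have h3 : (1 + E ^ 2) * rr n * (256 * K₁) * w ^ 3 ≤ δ * w ^ 3 :=
      mul_le_mul_of_nonneg_right h1 (by positivity)
    nlinarith
  have hEw2 : (1 + E ^ 2) * (8 * (1 + K₁)) ≤ c * w ^ 3 := by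
    have h1 : (1 + E ^ 2) * rr n ≤ c / (8 * (1 + K₁)) := hsm.trans (min_le_right _ _)
    rw [le_div_iff₀ (by positivity)] at h1
    have h2 : (1 + E ^ 2) * (8 * (1 + K₁)) * 1 ≤ (1 + E ^ 2) * (8 * (1 + K₁)) * (w ^ 3 * rr n) :=
      mul_le_mul_of_nonneg_left hwr (by positivity)
    have h3 : (1 + E ^ 2) * rr n * (8 * (1 + K₁)) * w ^ 3 ≤ c * w ^ 3 :=
      mul_le_mul_of_nonneg_right h1 (by positivity)
    nlinarith
  have hmE : ∀ t ∈ G, ∑ i, mn (u t) i ^ 2 ≤ K₁ * E ^ 2 := fun t ht =>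
    (hmn (u t) (h.spv ht)).trans (mul_le_mul_of_nonneg_left (h.energy_le t ht) hK₁.le)
  rw [← hw10]
  rw [← hw3] at hcase
  have hP : 0 < (w ^ 10)⁻¹ * (rr n ^ 5)⁻¹ := by positivity
  rcases hcase with hF | hF
  · -- much energy far away
    have goal : (S.card : ℝ) ≤ C1 * ((w ^ 10)⁻¹ * (rr n ^ 5)⁻¹) := by
      set m : ℝ := q * w ^ 2 with hm
      have hm0 : 0 < m := by positivity
      set M : ℕ := 2 * j + κ₀ with hM
      set A := (Finset.range n).filter (fun k => M ≤ k) with hA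
      have hρ : ∀ k ∈ A, rr n ≤ 2 ^ k * rr n ∧ 2 ^ k * rr n ≤ 2 := by
        intro k hk
        have hk' : k < n := Finset.mem_range.1 (Finset.mem_filter.1 hk).1
        constructor
        · have : (1 : ℝ) ≤ 2 ^ k := one_le_pow₀ (by norm_num)
          nlinarith
        · have : (2 : ℝ) ^ k * rr n ≤ 1 := by
            unfold rr
            rw [one_div, inv_pow, ← div_eq_mul_inv, div_le_one (by positivity)]
            exact pow_le_pow_right₀ (by norm_num) hk'.le
          linarith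
      have hR : (2 : ℝ) ^ M * rr n = 2 ^ κ₀ * w ^ 3 * rr n ^ 2 := by
        rw [hM, hw3, pow_add, pow_mul]
        field_simp
        norm_num
      have e1 : ∀ z ∈ S, ∫ t in II n z.1, NF n M (u t) z.2 ≤
          δ * w ^ 3 / 2 + 2 * (m ^ 2)⁻¹ * ∑ k ∈ A, ((2 ^ k * rr n) ^ 4)⁻¹ *
            ∫ t in II n z.1, ∫ x in ball z.2 (2 ^ k * rr n),
              hw ((enstrophy (u t) + η) / e) (sb (u t)) x := by
        intro z hz
        have hzi : ∀ k, IntegrableOn (fun t => ∫ x in ball z.2 (2 ^ k * rr n),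
            hw ((enstrophy (u t) + η) / e) (sb (u t)) x) (II n z.1) :=
          fun k => II_int h (hS z hz).1 (hS z hz).2.1 (hw_G h he hη hE _ _)
        have hsi : IntegrableOn (fun t => ∑ k ∈ A, ((2 ^ k * rr n) ^ 4)⁻¹ *
            ∫ x in ball z.2 (2 ^ k * rr n), hw ((enstrophy (u t) + η) / e) (sb (u t)) x)
            (II n z.1) :=
          integrable_finsetSum _ fun k _ => (hzi k).const_mul _
        have hci : IntegrableOn (fun _ : ℝ => 32 * (m ^ 3 + K₁ * E ^ 2) / (2 ^ M * rr n))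
            (II n z.1) :=
          integrableOn_const (by unfold II; simp)
        have b1 : ∫ t in II n z.1, NF n M (u t) z.2 ≤
            ∫ t in II n z.1, (32 * (m ^ 3 + K₁ * E ^ 2) / (2 ^ M * rr n) +
            2 * (m ^ 2)⁻¹ * ∑ k ∈ A, ((2 ^ k * rr n) ^ 4)⁻¹ *
              ∫ x in ball z.2 (2 ^ k * rr n), hw ((enstrophy (u t) + η) / e) (sb (u t)) x) := by
          refine integral_mono_of_nonneg (ae_of_all _ fun t => ?_) (hci.add (hsi.const_mul _)) ?_
          · unfold NF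
            refine Finset.sum_nonneg fun k _ => mul_nonneg (by positivity) ?_
            exact integral_nonneg fun x => nsq_nn _ x
          · filter_upwards [II_mem h (hS z hz).1 (hS z hz).2.1] with t ht
            unfold NF
            calc ∑ k ∈ A, ((2 ^ k * rr n) ^ 4)⁻¹ * A2 z.2 (2 ^ k * rr n) (u t)
                ≤ ∑ k ∈ A, ((2 ^ k * rr n) ^ 4)⁻¹ * (2 * ((2 * (2 ^ k * rr n)) ^ 3 * m ^ 3 +
                  (m ^ 2)⁻¹ * ∫ x in ball z.2 (2 ^ k * rr n),
                    hw ((enstrophy (u t) + η) / e) (sb (u t)) x) +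
                  2 * (2 * (2 ^ k * rr n)) ^ 3 * (K₁ * E ^ 2)) := by
                  refine Finset.sum_le_sum fun k _ => mul_le_mul_of_nonneg_left ?_ (by positivity)
                  have hk0 : (0 : ℝ) < 2 ^ k * rr n := by positivity
                  refine (A2_mean (h.spv ht).1 z.2 hk0).trans (add_le_add ?_ ?_)
                  · exact mul_le_mul_of_nonneg_left
                      (A2_tr (hs t) (sb_sm (h.spv ht).1) z.2 hk0 hm0) (by norm_num)
                  · exact mul_le_mul_of_nonneg_left (hmE t ht) (by positivity)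
              _ = 16 * (m ^ 3 + K₁ * E ^ 2) * ∑ k ∈ A, (2 ^ k * rr n)⁻¹ +
                  2 * (m ^ 2)⁻¹ * ∑ k ∈ A, ((2 ^ k * rr n) ^ 4)⁻¹ *
                    ∫ x in ball z.2 (2 ^ k * rr n),
                      hw ((enstrophy (u t) + η) / e) (sb (u t)) x := by
                  rw [Finset.mul_sum, Finset.mul_sum, ← Finset.sum_add_distrib]
                  refine Finset.sum_congr rfl fun k _ => ?_
                  have : (0 : ℝ) < 2 ^ k * rr n := by positivity
                  set Y := 2 ^ k * rr n with hY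
                  have e5 : (Y ^ 4)⁻¹ * (2 * Y) ^ 3 = 8 * Y⁻¹ := by
                    field_simp
                    norm_num
                  calc _ = (Y ^ 4)⁻¹ * (2 * Y) ^ 3 * (2 * (m ^ 3 + K₁ * E ^ 2)) +
                        2 * (m ^ 2)⁻¹ * ((Y ^ 4)⁻¹ * ∫ x in ball z.2 Y,
                          hw ((enstrophy (u t) + η) / e) (sb (u t)) x) := by ring
                    _ = _ := by
                        rw [e5]
                        ring
              _ ≤ 16 * (m ^ 3 + K₁ * E ^ 2) * (2 * (2 ^ M * rr n)⁻¹) +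
                  2 * (m ^ 2)⁻¹ * ∑ k ∈ A, ((2 ^ k * rr n) ^ 4)⁻¹ *
                    ∫ x in ball z.2 (2 ^ k * rr n),
                      hw ((enstrophy (u t) + η) / e) (sb (u t)) x := by
                  have := gsum n M (rr n) hr
                  gcongr
              _ = _ := by ring
        refine b1.trans ?_
        rw [integral_add hci (hsi.const_mul _), integral_const_mul,
          integral_finsetSum _ fun k _ => (hzi k).const_mul _, setIntegral_const, II_vol, smul_eq_mul]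
        simp only [integral_const_mul]
        refine add_le_add ?_ le_rfl
        rw [hR, hm, mul_pow, hq3]
        have e6 : 2 * rr n ^ 2 * (32 * (δ * 2 ^ κ₀ / 256 * (w ^ 2) ^ 3 + K₁ * E ^ 2) /
            (2 ^ κ₀ * w ^ 3 * rr n ^ 2)) = δ * w ^ 3 / 4 + 64 * (K₁ * E ^ 2) / (2 ^ κ₀ * w ^ 3) := by
          field_simp
          ring
        rw [e6]
        have e7 : 64 * (K₁ * E ^ 2) / (2 ^ κ₀ * w ^ 3) ≤ δ * w ^ 3 / 4 := by
          rw [div_le_iff₀ (by positivity)]
          have g1 : (1 : ℝ) ≤ 2 ^ κ₀ := one_le_pow₀ (by norm_num)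
          have g2 : (1 : ℝ) ≤ 2 ^ κ₀ * w ^ 3 := by
            calc (1 : ℝ) = 1 * 1 := by ring
              _ ≤ 2 ^ κ₀ * w ^ 3 := mul_le_mul g1 hw1 zero_le_one (by positivity)
          have g3 : E ^ 2 * (256 * K₁) ≤ δ * w ^ 3 := by nlinarith
          have g4 : δ * w ^ 3 * 1 ≤ δ * w ^ 3 * (2 ^ κ₀ * w ^ 3) :=
            mul_le_mul_of_nonneg_left g2 (by positivity)
          nlinarith
        linarith
      have e2 : (S.card : ℝ) * (δ * w ^ 3 / 2) ≤
          2 * (m ^ 2)⁻¹ * (L * (rr n ^ 3)⁻¹ * (2 * (2 ^ M * rr n)⁻¹)) := by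
        have f1 : (S.card : ℝ) * (δ * w ^ 3 / 2) ≤ ∑ z ∈ S, 2 * (m ^ 2)⁻¹ * ∑ k ∈ A,
            ((2 ^ k * rr n) ^ 4)⁻¹ * ∫ t in II n z.1, ∫ x in ball z.2 (2 ^ k * rr n),
              hw ((enstrophy (u t) + η) / e) (sb (u t)) x := by
          rw [← nsmul_eq_mul, ← Finset.sum_const]
          refine Finset.sum_le_sum fun z hz => ?_
          have := e1 z hz
          have := hF z hz
          linarith
        refine f1.trans ?_
        rw [← Finset.mul_sum]
        refine mul_le_mul_of_nonneg_left ?_ (by positivity)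
        rw [Finset.sum_comm]
        calc ∑ k ∈ A, ∑ z ∈ S, ((2 ^ k * rr n) ^ 4)⁻¹ *
              ∫ t in II n z.1, ∫ x in ball z.2 (2 ^ k * rr n),
                hw ((enstrophy (u t) + η) / e) (sb (u t)) x
            ≤ ∑ k ∈ A, L * (rr n ^ 3)⁻¹ * (2 ^ k * rr n)⁻¹ := by
              refine Finset.sum_le_sum fun k hk => ?_
              rw [← Finset.mul_sum]
              have g1 := hpk' (2 ^ k * rr n) (hρ k hk).1 (hρ k hk).2
              refine (mul_le_mul_of_nonneg_left g1 (by positivity)).trans (le_of_eq ?_)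
              have : (0 : ℝ) < 2 ^ k := by positivity
              field_simp
          _ = L * (rr n ^ 3)⁻¹ * ∑ k ∈ A, (2 ^ k * rr n)⁻¹ := by rw [Finset.mul_sum]
          _ ≤ _ := by
              have := gsum n M (rr n) hr
              gcongr
      have e3 : 2 * (m ^ 2)⁻¹ * (L * (rr n ^ 3)⁻¹ * (2 * (2 ^ M * rr n)⁻¹)) =
          C1 * ((w ^ 10)⁻¹ * (rr n ^ 5)⁻¹) * (δ * w ^ 3 / 2) := by
        rw [hR, hm, hC1]
        field_simp
        ring
      rw [e3] at e2
      exact le_of_mul_le_mul_right e2 (by positivity)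
    refine goal.trans (mul_le_mul_of_nonneg_right ?_ hP.le)
    have : 0 ≤ C2 := by positivity
    linarith
  · -- fast mean velocity
    have goal : (S.card : ℝ) ≤ C2 * ((w ^ 10)⁻¹ * (rr n ^ 5)⁻¹) := by
      set l : ℝ := q' * w with hl
      have hl0 : 0 < l := by positivity
      have e1 : ∀ z ∈ S, ∫ t in II n z.1, ‖mo (rr n) (u t) z.2‖ ≤ c * (rr n ^ 2 * w ^ 3) / 2 +
          K * ((l ^ 7)⁻¹ * (rr n ^ 3)⁻¹) * ∫ t in II n z.1, ∫ x in ball z.2 (rr n),
            hw ((enstrophy (u t) + η) / e) (sb (u t)) x := by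
        intro z hz
        have hzi : IntegrableOn (fun t => ∫ x in ball z.2 (rr n),
            hw ((enstrophy (u t) + η) / e) (sb (u t)) x) (II n z.1) :=
          II_int h (hS z hz).1 (hS z hz).2.1 (hw_G h he hη hE _ _)
        have hci : IntegrableOn (fun _ : ℝ => K * (8 * l ^ 3) + (1 + K₁) * |E|) (II n z.1) :=
          integrableOn_const (by unfold II; simp)
        have b1 : ∫ t in II n z.1, ‖mo (rr n) (u t) z.2‖ ≤
            ∫ t in II n z.1, (K * (8 * l ^ 3) + (1 + K₁) * |E| +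
            K * ((l ^ 7)⁻¹ * (rr n ^ 3)⁻¹) * ∫ x in ball z.2 (rr n),
              hw ((enstrophy (u t) + η) / e) (sb (u t)) x) := by
          refine integral_mono_of_nonneg (ae_of_all _ fun t => norm_nonneg _)
            (hci.add (hzi.const_mul _)) ?_
          filter_upwards [II_mem h (hS z hz).1 (hS z hz).2.1] with t ht
          have g1 := hmo _ (sb (u t)) (hs t) (sb_sm (h.spv ht).1) z.2 (rr n) l hr hl0
          have g2 : ‖mn (u t)‖ ≤ (1 + K₁) * |E| := by
            refine mn_norm _ (by positivity) ((hmE t ht).trans ?_)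
            rw [mul_pow, sq_abs]
            exact mul_le_mul_of_nonneg_right (by nlinarith) (sq_nonneg E)
          rw [mo_mean (h.spv ht).1]
          refine (norm_add_le _ _).trans ((add_le_add g1 g2).trans (le_of_eq ?_))
          ring
        refine b1.trans ?_
        rw [integral_add hci (hzi.const_mul _), setIntegral_const, II_vol, smul_eq_mul,
          integral_const_mul]
        refine add_le_add ?_ le_rfl
        rw [hl, mul_pow, hq3']
        have e6 : 2 * rr n ^ 2 * (K * (8 * (c / (64 * K) * w ^ 3)) + (1 + K₁) * |E|) =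
            c * (rr n ^ 2 * w ^ 3) / 4 + rr n ^ 2 * (8 * (1 + K₁) * |E|) / 4 := by
          field_simp
          ring
        rw [e6]
        have e7 : 8 * (1 + K₁) * |E| ≤ c * w ^ 3 := by
          have g1 : |E| ≤ 1 + E ^ 2 := by
            rw [← sq_abs E]
            nlinarith [sq_nonneg (|E| - 1), abs_nonneg E]
          calc 8 * (1 + K₁) * |E| ≤ 8 * (1 + K₁) * (1 + E ^ 2) :=
                mul_le_mul_of_nonneg_left g1 (by positivity)
            _ = (1 + E ^ 2) * (8 * (1 + K₁)) := by ring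
            _ ≤ _ := hEw2
        have e8 : rr n ^ 2 * (8 * (1 + K₁) * |E|) ≤ rr n ^ 2 * (c * w ^ 3) :=
          mul_le_mul_of_nonneg_left e7 (by positivity)
        linarith
      have e2 : (S.card : ℝ) * (c * (rr n ^ 2 * w ^ 3) / 2) ≤
          K * ((l ^ 7)⁻¹ * (rr n ^ 3)⁻¹) * L := by
        have f1 : (S.card : ℝ) * (c * (rr n ^ 2 * w ^ 3) / 2) ≤ ∑ z ∈ S,
            K * ((l ^ 7)⁻¹ * (rr n ^ 3)⁻¹) * ∫ t in II n z.1, ∫ x in ball z.2 (rr n),
              hw ((enstrophy (u t) + η) / e) (sb (u t)) x := by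
          rw [← nsmul_eq_mul, ← Finset.sum_const]
          refine Finset.sum_le_sum fun z hz => ?_
          have := e1 z hz
          have := hF z hz
          linarith
        refine f1.trans ?_
        rw [← Finset.mul_sum]
        refine mul_le_mul_of_nonneg_left ?_ (by positivity)
        have g1 := hpk' (rr n) le_rfl (by linarith)
        rwa [div_self hr.ne', one_pow, mul_one] at g1
      have e3 : K * ((l ^ 7)⁻¹ * (rr n ^ 3)⁻¹) * L =
          C2 * ((w ^ 10)⁻¹ * (rr n ^ 5)⁻¹) * (c * (rr n ^ 2 * w ^ 3) / 2) := by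
        rw [hl, hC2]
        field_simp
      rw [e3] at e2
      exact le_of_mul_le_mul_right e2 (by positivity)
    refine goal.trans (mul_le_mul_of_nonneg_right ?_ hP.le)
    have : 0 ≤ C1 := by positivity
    linarith

theorem t_CFPM : S_OVER → S_CFPM := by
  intro hO δ c κ₀ hδ hc
  obtain ⟨C, δ₀, hC, hδ₀, hmain⟩ := core hO δ c κ₀ hδ hc
  refine ⟨C, δ₀, hC, hδ₀, fun T E D G u p h n j hsm S hsep hS hcase => ?_⟩
  have h1 : ∀ ε : ℝ, 0 < ε → (S.card : ℝ) ≤ C * ((E ^ 2 + ε) ^ (2 / 3 : ℝ) * (D + ε * |T|)) *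
      ((2 : ℝ) ^ (-(20 / 3 : ℝ) * j) * (2 : ℝ) ^ ((5 / 3 : ℝ) * n)) := by
    intro ε hε
    have hb : 0 < E ^ 2 + ε := by positivity
    have h3 : ((E ^ 2 + ε) ^ (1 / 3 : ℝ)) ^ 3 = E ^ 2 + ε := by
      rw [← Real.rpow_natCast, ← Real.rpow_mul hb.le]
      norm_num
    have h2 : ((E ^ 2 + ε) ^ (1 / 3 : ℝ)) ^ 2 = (E ^ 2 + ε) ^ (2 / 3 : ℝ) := by
      rw [← Real.rpow_natCast, ← Real.rpow_mul hb.le]
      norm_num
    have h4 := hmain T E D G u p h n j hsm S hsep hS hcase ((E ^ 2 + ε) ^ (1 / 3 : ℝ)) ε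
      (by positivity) hε (by rw [h3]; linarith)
    rwa [h2] at h4
  have h2 : Continuous fun ε : ℝ => C * ((E ^ 2 + ε) ^ (2 / 3 : ℝ) * (D + ε * |T|)) *
      ((2 : ℝ) ^ (-(20 / 3 : ℝ) * j) * (2 : ℝ) ^ ((5 / 3 : ℝ) * n)) := by
    have h3 : Continuous fun ε : ℝ => (E ^ 2 + ε) ^ (2 / 3 : ℝ) :=
      (Real.continuous_rpow_const (by norm_num)).comp (continuous_const.add continuous_id)
    fun_prop
  have h3 : Tendsto (fun ε : ℝ => C * ((E ^ 2 + ε) ^ (2 / 3 : ℝ) * (D + ε * |T|)) *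
      ((2 : ℝ) ^ (-(20 / 3 : ℝ) * j) * (2 : ℝ) ^ ((5 / 3 : ℝ) * n))) (𝓝[>] 0)
      (𝓝 (C * ((E ^ 2 + 0) ^ (2 / 3 : ℝ) * (D + 0 * |T|)) *
      ((2 : ℝ) ^ (-(20 / 3 : ℝ) * j) * (2 : ℝ) ^ ((5 / 3 : ℝ) * n)))) :=
    (h2.tendsto 0).mono_left nhdsWithin_le_nhds
  have h4 := ge_of_tendsto h3 (by
    filter_upwards [self_mem_nhdsWithin] with ε hε
    exact h1 ε hε)
  refine h4.trans (le_of_eq ?_)
  have e1 : (E ^ 2 * 2 ^ n) ^ (2 / 3 : ℝ) = (E ^ 2) ^ (2 / 3 : ℝ) * (2 : ℝ) ^ ((2 / 3 : ℝ) * n) := by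
    rw [Real.mul_rpow (sq_nonneg E) (by positivity)]
    congr 1
    rw [← Real.rpow_natCast, ← Real.rpow_mul (by norm_num)]
    congr 1
    ring
  have e2 : (2 : ℝ) ^ ((5 / 3 : ℝ) * n) = (2 : ℝ) ^ ((2 / 3 : ℝ) * n) * 2 ^ n := by
    rw [← Real.rpow_natCast 2 n, ← Real.rpow_add (by norm_num)]
    congr 1
    ring
  rw [e1, e2, add_zero, zero_mul, add_zero]
  ring

end Pool.Agent.Y255.NS
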